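import Mathlib

set_option autoImplicit false

namespace Pool.Agent.Results.MP_8484b9_co.Fano

/-- `c` is a distinguishing colouring of `G`. -/
def Dist {V : Type} (G : SimpleGraph V) {d : ℕ} (c : V → Fin d) : Prop :=
  ∀ g : G ≃g G, (∀ v, c (g v) = c v) → ∀ v, g v = v

/-- The distinguishing number. -/
noncomputable def Dn {V : Type} (G : SimpleGraph V) : ℕ := sInf {d | ∃ c : V → Fin d, Dist G c}

/-- The fixing number. -/
noncomputable def Fix {V : Type} (G : SimpleGraph V) : ℕ :=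
  sInf {k | ∃ S : Finset V, S.card = k ∧ ∀ g : G ≃g G, (∀ v ∈ S, g v = v) → ∀ v, g v = v}

/-- The paint cost with `d` colours. -/
noncomputable def rho {V : Type} (G : SimpleGraph V) (d : ℕ) : ℕ :=
  sInf {k | ∃ c : V → Fin d, Dist G c ∧ ∃ j, k = {v | c v ≠ j}.ncard}

/-- The frugal distinguishing number. -/
noncomputable def Fr {V : Type} (G : SimpleGraph V) : ℕ := sInf {d | Dn G ≤ d ∧ rho G d = Fix G}

section Aux

/-- points `0..6` form a clique, `7..13` are the lines of the Fano plane -/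
def ad (x y : Fin 14) : Bool :=
  if x.val < 7 then
    if y.val < 7 then x != y else (x.val + 14 - y.val) % 7 ∈ [0, 1, 3]
  else y.val < 7 && (y.val + 14 - x.val) % 7 ∈ [0, 1, 3]

/-- the graph -/
def Γ : SimpleGraph (Fin 14) where
  Adj x y := ad x y = true
  symm := ⟨by decide +kernel⟩
  loopless := ⟨by decide +kernel⟩

/-- the involutions -/
def tb : List (List (Fin 14)) := [[0, 1, 4, 3, 2, 6, 5, 7, 8, 10, 9, 13, 12, 11],
  [0, 1, 5, 3, 6, 2, 4, 7, 12, 9, 10, 13, 8, 11], [0, 1, 6, 3, 5, 4, 2, 7, 12, 10, 9, 11, 8, 13],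
  [0, 2, 1, 6, 4, 5, 3, 13, 8, 12, 10, 11, 9, 7], [0, 3, 2, 1, 5, 4, 6, 7, 9, 8, 12, 11, 10, 13],
  [0, 3, 6, 1, 4, 5, 2, 7, 10, 12, 8, 11, 9, 13], [0, 4, 2, 5, 1, 3, 6, 11, 8, 9, 12, 7, 10, 13],
  [0, 5, 2, 4, 3, 1, 6, 11, 9, 8, 10, 7, 12, 13], [0, 6, 3, 2, 4, 5, 1, 13, 10, 9, 8, 11, 12, 7],
  [1, 0, 2, 3, 6, 5, 4, 7, 13, 9, 10, 12, 11, 8], [1, 0, 5, 3, 4, 2, 6, 7, 11, 9, 10, 8, 13, 12],
  [2, 1, 0, 4, 3, 5, 6, 8, 7, 11, 10, 9, 12, 13], [2, 5, 0, 3, 4, 1, 6, 9, 11, 7, 10, 8, 12, 13],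
  [3, 1, 2, 0, 4, 6, 5, 7, 8, 13, 11, 10, 12, 9], [3, 1, 4, 0, 2, 5, 6, 7, 8, 11, 13, 9, 12, 10],
  [4, 1, 3, 2, 0, 5, 6, 8, 7, 9, 13, 11, 12, 10], [4, 6, 2, 3, 0, 5, 1, 10, 13, 9, 7, 11, 12, 8],
  [5, 1, 2, 6, 4, 0, 3, 12, 8, 13, 10, 11, 7, 9], [5, 2, 1, 3, 4, 0, 6, 9, 8, 7, 10, 11, 13, 12],
  [6, 1, 2, 5, 4, 3, 0, 12, 8, 9, 11, 10, 7, 13], [6, 4, 2, 3, 1, 5, 0, 10, 8, 9, 7, 12, 11, 13]]

lemma tb_ok : ∀ l ∈ tb, (∀ x : Fin 14, l.getD (l.getD x 0) 0 = x) ∧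
    (∀ x y : Fin 14, ad (l.getD x 0) (l.getD y 0) = ad x y) ∧ ∃ x : Fin 14, l.getD x 0 ≠ x := by
  decide +kernel

lemma tb_all : ∀ a b c : Fin 14, ∃ l ∈ tb, l.getD a 0 = a ∧ (l.getD b 0 = b ∨ l.getD b 0 = c) ∧
    (l.getD c 0 = b ∨ l.getD c 0 = c) := by
  decide +kernel

lemma inv (a b c : Fin 14) : ∃ g : Γ ≃g Γ, (∀ x, g (g x) = x) ∧ (∃ x, g x ≠ x) ∧ g a = a ∧
    (g b = b ∨ g b = c) ∧ (g c = b ∨ g c = c) := by
  obtain ⟨l, hl, h⟩ := tb_all a b c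
  obtain ⟨h1, h2, h3⟩ := tb_ok l hl
  exact ⟨⟨Function.Involutive.toPerm (fun x : Fin 14 => l.getD x 0) h1, fun {x y} => by
    change ad (l.getD x 0) (l.getD y 0) = true ↔ ad x y = true
    rw [h2]⟩, h1, h3, h⟩

lemma low {d : ℕ} (f : Fin 14 → Fin d) (j : Fin d) (a b c : Fin 14)
    (hT : ∀ v, f v ≠ j → v = a ∨ v = b ∨ v = c) (hbc : f b = f c) : ¬ Dist Γ f := by
  intro hD
  obtain ⟨g, h1, ⟨x, hx⟩, ha, hb, hc⟩ := inv a b c
  have k : ∀ v, f v ≠ j → f (g v) = f v := by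
    intro v hv
    rcases hT v hv with rfl | rfl | rfl
    · rw [ha]
    · rcases hb with e | e <;> rw [e]; exact hbc.symm
    · rcases hc with e | e <;> rw [e]; exact hbc
  refine hx (hD g (fun v => ?_) x)
  by_cases h : f v = j
  · by_contra h'
    have := k (g v) (h ▸ h')
    rw [h1] at this
    exact h' this.symm
  · exact k v h

lemma two (T : Set (Fin 14)) (h : T.ncard ≤ 2) : ∃ a b, ∀ v ∈ T, v = a ∨ v = b := by
  rcases Nat.lt_or_ge T.ncard 2 with h' | h'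
  · obtain ⟨a, ha⟩ := (Set.ncard_le_one_iff_subset_singleton).1 (Nat.lt_succ_iff.1 h')
    exact ⟨a, a, fun v hv => Or.inl (ha hv)⟩
  · obtain ⟨a, b, -, rfl⟩ := Set.ncard_eq_two.1 (le_antisymm h h')
    exact ⟨a, b, fun v hv => hv⟩

lemma low3 {d : ℕ} (f : Fin 14 → Fin d) (j : Fin d) (h : Dist Γ f) : 3 ≤ {v | f v ≠ j}.ncard := by
  by_contra hc
  obtain ⟨a, b, e⟩ := two {v | f v ≠ j} (by omega)
  exact low f j a b b (fun v hv => (e v hv).imp_right Or.inl) rfl h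

lemma low4 {d : ℕ} (hd : d ≤ 3) (f : Fin 14 → Fin d) (j : Fin d) (h : Dist Γ f) :
    4 ≤ {v | f v ≠ j}.ncard := by
  by_contra hc
  obtain ⟨a, b, c, -, -, -, e⟩ := Set.ncard_eq_three.1
    (le_antisymm (by omega) (low3 f j h) : {v | f v ≠ j}.ncard = 3)
  have m : ∀ v, f v ≠ j ↔ v = a ∨ v = b ∨ v = c := fun v => Set.ext_iff.1 e v
  have ha := Fin.val_ne_of_ne ((m a).2 (by simp))
  have hb := Fin.val_ne_of_ne ((m b).2 (by simp))
  have hc := Fin.val_ne_of_ne ((m c).2 (by simp))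
  have : (f b).val = f c ∨ (f a).val = f c ∨ (f a).val = f b := by omega
  rcases this with e | e | e
  · exact low f j a b c (fun v hv => (m v).1 hv) (Fin.ext e) h
  · exact low f j b a c (fun v hv => by have := (m v).1 hv; tauto) (Fin.ext e) h
  · exact low f j c a b (fun v hv => by have := (m v).1 hv; tauto) (Fin.ext e) h

lemma adg (g : Γ ≃g Γ) (x y : Fin 14) : ad (g x) (g y) = ad x y :=
  Bool.eq_iff_iff.2 g.map_rel_iff'

lemma step (g : Γ ≃g Γ) (F N : List (Fin 14)) (hF : ∀ s ∈ F, g s = s)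
    (hN : ∀ x ∈ N, x ∈ F ∨ ∀ y, y = x ∨ y ∈ F ∨ ∃ s ∈ F, ad x s ≠ ad y s) : ∀ x ∈ N, g x = x := by
  intro x hx
  rcases hN x hx with h | h
  · exact hF x h
  rcases h (g x) with h | h | ⟨s, hs, h⟩
  · exact h
  · exact g.injective (hF _ h)
  · exact absurd (by rw [← adg g x s, hF s hs]) h

lemma fix3 (g : Γ ≃g Γ) (h : ∀ s ∈ [0, 1, 2], g s = s) (v : Fin 14) : g v = v :=
  step g _ (List.finRange 14) (step g _ [0, 1, 2, 7, 8, 9, 10, 11, 12, 13] h (by decide +kernel))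
    (by decide +kernel) v (List.mem_finRange v)

set_option synthInstance.maxSize 20000 in
lemma four : ∀ a ∈ ([0, 1, 8, 9] : List (Fin 14)), ∀ b ∈ ([0, 1, 8, 9] : List (Fin 14)),
    ∀ c ∈ ([0, 1, 8, 9] : List (Fin 14)), ∀ e ∈ ([0, 1, 8, 9] : List (Fin 14)),
    ad a b = true → ad b c = true → a ≠ c → ad e a = false → ad e b = false → e ≠ a →
    (∃ x y z, ad x y = true ∧ ad x z = true ∧ ad y z = true ∧ ad a x = true ∧ ad a y = true ∧
      ad a z = true ∧ ad b x = true ∧ ad b y = true ∧ ad b z = true) → a = 0 ∧ b = 1 ∧ c = 8 ∧ e = 9 := by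
  decide +kernel

lemma fix4 (g : Γ ≃g Γ) (h : ∀ s ∈ ([0, 1, 8, 9] : List (Fin 14)), g s ∈ [0, 1, 8, 9])
    (v : Fin 14) : g v = v := by
  have k := four _ (h 0 (by simp)) _ (h 1 (by simp)) _ (h 8 (by simp)) _ (h 9 (by simp))
    (by rw [adg]; rfl) (by rw [adg]; rfl) (g.injective.ne (by decide)) (by rw [adg]; rfl)
    (by rw [adg]; rfl) (g.injective.ne (by decide)) ⟨g 2, g 3, g 4, by simp only [adg]; decide⟩
  exact step g _ (List.finRange 14) (step g [0, 1, 8, 9] [0, 1, 8, 9, 2, 4, 10, 12]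
    (by simpa using k) (by decide +kernel)) (by decide +kernel) v (List.mem_finRange v)

lemma sinf {S : Set ℕ} {k : ℕ} (h : k ∈ S) (h' : ∀ m ∈ S, k ≤ m) : sInf S = k :=
  le_antisymm (Nat.sInf_le h) (h' _ (Nat.sInf_mem ⟨k, h⟩))

lemma col (d : ℕ) : Dist Γ (fun v => if v ∈ ([0, 1, 8, 9] : List (Fin 14)) then (1 : Fin (d + 2))
    else 0) := fun g h => fix4 g fun s hs => by
  have := h s
  by_contra e
  simp only [if_pos hs, if_neg e] at this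
  exact absurd this (by simp)

lemma rho_eq (d : ℕ) (hd : d ≤ 1) : rho Γ (d + 2) = 4 := by
  refine sinf ⟨_, col d, 0, ?_⟩ ?_
  · rw [show {v : Fin 14 | _ ≠ _} = (({0, 1, 8, 9} : Finset (Fin 14)) : Set (Fin 14)) by
      ext v; simp; tauto, Set.ncard_coe_finset]
    rfl
  · rintro _ ⟨f, h, j, rfl⟩
    exact low4 (by omega) f j h

lemma dn_eq : Dn Γ = 2 := by
  refine sinf ⟨_, col 0⟩ ?_
  rintro m ⟨f, h⟩
  by_contra e
  have := low3 f (f 0) h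
  rw [show {v | f v ≠ f 0} = ∅ by
    ext v; simp only [Set.mem_ofPred_eq, Set.mem_empty_iff_false, iff_false, not_not]
    exact Fin.ext (by omega)] at this
  simp at this

lemma fix_eq : Fix Γ = 3 := by
  refine sinf ⟨{0, 1, 2}, rfl, fun g h => fix3 g (by simpa using h)⟩ ?_
  rintro _ ⟨S, rfl, h⟩
  by_contra e
  obtain ⟨a, b, e⟩ := two S (by rw [Set.ncard_coe_finset]; omega)
  obtain ⟨g, -, ⟨x, hx⟩, ha, hb, -⟩ := inv a b b
  refine hx (h g (fun v hv => ?_) x)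
  rcases e v hv with rfl | rfl
  · exact ha
  · exact hb.elim id id

lemma rho4 : rho Γ 4 = 3 := by
  refine sinf ⟨fun v => if h : v.val < 3 then ⟨v.val, by omega⟩ else 3,
    fun g h => fix3 g fun s hs => ?_, 3, ?_⟩ ?_
  · have := h s
    generalize g s = t at this
    revert s t
    decide +kernel
  · rw [show {v : Fin 14 | _ ≠ _} = (({0, 1, 2} : Finset (Fin 14)) : Set (Fin 14)) by
      ext v; revert v; simp only [Set.mem_ofPred_eq, Finset.mem_coe]; decide +kernel,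
      Set.ncard_coe_finset]
    rfl
  · rintro _ ⟨f, h, j, rfl⟩
    exact low3 f j h

end Aux

/-- A graph whose paint cost repeats at `D(G)` and `D(G) + 1`, before the frugal distinguishing
number. -/
theorem result : ∃ (n : ℕ) (G : SimpleGraph (Fin n)),
    Dn G + 1 < Fr G ∧ rho G (Dn G) = rho G (Dn G + 1) ∧ rho G (Dn G) ≠ Fix G := by
  refine ⟨14, Γ, ?_, ?_, ?_⟩
  · have h := Nat.sInf_mem (s := {d | Dn Γ ≤ d ∧ rho Γ d = Fix Γ})
      ⟨4, by rw [dn_eq]; norm_num, rho4.trans fix_eq.symm⟩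
    change Dn Γ ≤ Fr Γ ∧ rho Γ (Fr Γ) = Fix Γ at h
    rw [dn_eq, fix_eq] at h
    rw [dn_eq]
    by_contra e
    have := rho_eq (Fr Γ - 2) (by omega)
    rw [Nat.sub_add_cancel h.1, h.2] at this
    omega
  · rw [dn_eq]; exact (rho_eq 0 (by omega)).trans (rho_eq 1 le_rfl).symm
  · rw [dn_eq, fix_eq, rho_eq 0 (by omega)]; norm_num

end Pool.Agent.Results.MP_8484b9_co.Fano
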